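import Mathlib

/-!
# Two sequential spaces whose product is a `k_ℝ`-space but not a `k`-space
-/

namespace Pool.Agent.Results.MP_a29c66_gt.SequentialProduct

open Set Filter Topology

/-- `Z` is a `k`-space: a set whose trace on each compact set `K` is closed in `K` is closed. -/
def IsKSpace (Z : Type*) [TopologicalSpace Z] : Prop :=
  ∀ F : Set Z, (∀ K : Set Z, IsCompact K → IsClosed ((↑) ⁻¹' F : Set K)) → IsClosed F

/-- `Z` is a `k_ℝ`-space: it is Tychonoff and every real function on `Z` whose restriction to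
each compact set is continuous, is continuous. -/
def IsKRSpace (Z : Type*) [TopologicalSpace Z] : Prop :=
  T35Space Z ∧ ∀ f : Z → ℝ, (∀ K : Set Z, IsCompact K → ContinuousOn f K) → Continuous f

/-! ### The sequential fan -/

/-- The sequential fan `S_ω`. -/
def Fan : Type := Option (ℕ × ℕ)

instance : TopologicalSpace Fan where
  IsOpen U := none ∈ U → ∀ n : ℕ, ∃ M : ℕ, ∀ m ≥ M, (some (n, m) : Option (ℕ × ℕ)) ∈ U
  isOpen_univ := fun _ _ => ⟨0, fun _ _ => trivial⟩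
  isOpen_inter := by
    intro U V hU hV h n
    obtain ⟨M, hM⟩ := hU h.1 n
    obtain ⟨M', hM'⟩ := hV h.2 n
    exact ⟨max M M', fun m hm => ⟨hM m (le_trans (le_max_left _ _) hm),
      hM' m (le_trans (le_max_right _ _) hm)⟩⟩
  isOpen_sUnion := by
    intro S hS h n
    obtain ⟨U, hU, hnU⟩ := h
    obtain ⟨M, hM⟩ := hS U hU hnU n
    exact ⟨M, fun m hm => ⟨U, hU, hM m hm⟩⟩

/-- The non-isolated point of the fan. -/
def Fan.inf : Fan := (none : Option (ℕ × ℕ))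

/-- The isolated points of the fan. -/
def Fan.pt (n m : ℕ) : Fan := (some (n, m) : Option (ℕ × ℕ))

theorem Fan.isOpen_iff {U : Set Fan} :
    IsOpen U ↔ (Fan.inf ∈ U → ∀ n : ℕ, ∃ M : ℕ, ∀ m ≥ M, Fan.pt n m ∈ U) := Iff.rfl

theorem Fan.cases' (x : Fan) : x = Fan.inf ∨ ∃ n m, x = Fan.pt n m := by
  rcases x with _ | ⟨n, m⟩
  · exact Or.inl rfl
  · exact Or.inr ⟨n, m, rfl⟩

theorem Fan.pt_ne_inf (n m : ℕ) : Fan.pt n m ≠ Fan.inf := fun h => by
  simp [Fan.pt, Fan.inf] at h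

theorem Fan.pt_inj {n m n' m' : ℕ} (h : Fan.pt n m = Fan.pt n' m') : n = n' ∧ m = m' :=
  Prod.mk.inj (Option.some.inj h)

theorem Fan.isOpen_singleton (n m : ℕ) : IsOpen ({Fan.pt n m} : Set Fan) := by
  rw [Fan.isOpen_iff]
  intro h
  exact absurd (mem_singleton_iff.1 h).symm (Fan.pt_ne_inf n m)

instance : T1Space Fan := by
  refine ⟨fun x => ?_⟩
  rw [← isOpen_compl_iff, Fan.isOpen_iff]
  intro _ n
  rcases Fan.cases' x with rfl | ⟨n', m', rfl⟩
  · exact ⟨0, fun m _ => Fan.pt_ne_inf n m⟩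
  · refine ⟨m' + 1, fun m hm h => ?_⟩
    have := (Fan.pt_inj (mem_singleton_iff.1 h)).2
    omega

theorem Fan.clopen_basis (x : Fan) (U : Set Fan) (hU : IsOpen U) (hx : x ∈ U) :
    ∃ V, IsClopen V ∧ x ∈ V ∧ V ⊆ U := by
  rcases Fan.cases' x with rfl | ⟨n, m, rfl⟩
  · refine ⟨U, ⟨?_, hU⟩, hx, subset_rfl⟩
    rw [← isOpen_compl_iff, Fan.isOpen_iff]
    intro h
    exact absurd hx h
  · exact ⟨{Fan.pt n m}, ⟨isClosed_singleton, Fan.isOpen_singleton n m⟩, rfl,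
      singleton_subset_iff.2 hx⟩

theorem Fan.tendsto_inf (n : ℕ) (u : ℕ → ℕ) (hu : Tendsto u atTop atTop) :
    Tendsto (fun k => Fan.pt n (u k)) atTop (𝓝 Fan.inf) := by
  rw [tendsto_nhds]
  intro U hU h
  obtain ⟨M, hM⟩ := Fan.isOpen_iff.1 hU h n
  filter_upwards [hu.eventually_ge_atTop M] with k hk using hM _ hk

instance : SequentialSpace Fan := by
  refine ⟨fun C hC => ?_⟩
  rw [← isOpen_compl_iff, Fan.isOpen_iff]
  intro h n
  by_contra hcon
  push Not at hcon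
  choose u hu hu' using hcon
  have hu'' : ∀ M, Fan.pt n (u M) ∈ C := fun M => not_not.1 (hu' M)
  exact h (hC hu'' (Fan.tendsto_inf n u (tendsto_atTop_mono hu tendsto_id)))

/-! ### The second factor -/

/-- An almost disjoint family of infinite subsets of `ℕ`, maximal, with an infinite
enumerated part. -/
structure Mad (𝒜 : Set (Set ℕ)) : Prop where
  inf : ∀ A ∈ 𝒜, A.Infinite
  ad : ∀ A ∈ 𝒜, ∀ B ∈ 𝒜, A ≠ B → (A ∩ B).Finite
  max : ∀ B : Set ℕ, B.Infinite → ∃ A ∈ 𝒜, (A ∩ B).Infinite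

theorem exists_mad : ∃ 𝒜 : Set (Set ℕ), Mad 𝒜 ∧ ∃ A : ℕ → 𝒜, Function.Injective A := by
  classical
  let P : Set (Set (Set ℕ)) := {𝒜 | (∀ A ∈ 𝒜, A.Infinite) ∧
    ∀ A ∈ 𝒜, ∀ B ∈ 𝒜, A ≠ B → (A ∩ B).Finite}
  let A₀ : ℕ → Set ℕ := fun i => range (Nat.pair i)
  have hA₀inf : ∀ i, (A₀ i).Infinite := fun i =>
    infinite_range_of_injective fun a b h => (Nat.pair_eq_pair.1 h).2
  have hA₀dis : ∀ i j, i ≠ j → A₀ i ∩ A₀ j = ∅ := by
    intro i j hij
    ext n
    simp only [mem_inter_iff, mem_empty_iff_false, iff_false]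
    rintro ⟨⟨a, rfl⟩, ⟨b, hb⟩⟩
    exact hij (Nat.pair_eq_pair.1 hb).1.symm
  have hA₀P : range A₀ ∈ P := by
    refine ⟨?_, ?_⟩
    · rintro _ ⟨i, rfl⟩
      exact hA₀inf i
    · rintro _ ⟨i, rfl⟩ _ ⟨j, rfl⟩ hij
      rw [hA₀dis i j (fun h => hij (by rw [h]))]
      exact finite_empty
  obtain ⟨𝒜, h𝒜sub, h𝒜max⟩ := zorn_subset_nonempty P (by
    intro c hcP hc hcne
    refine ⟨⋃₀ c, ⟨?_, ?_⟩, fun s hs => subset_sUnion_of_mem hs⟩
    · rintro A ⟨s, hs, hA⟩
      exact (hcP hs).1 A hA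
    · rintro A ⟨s, hs, hA⟩ B ⟨t, ht, hB⟩ hAB
      rcases hc.total hs ht with hst | hst
      · exact (hcP ht).2 A (hst hA) B hB hAB
      · exact (hcP hs).2 A hA B (hst hB) hAB) (range A₀) hA₀P
  have h𝒜P : 𝒜 ∈ P := h𝒜max.prop
  refine ⟨𝒜, ⟨h𝒜P.1, h𝒜P.2, ?_⟩, fun i => ⟨A₀ i, h𝒜sub ⟨i, rfl⟩⟩, ?_⟩
  · intro B hB
    by_contra hcon
    push Not at hcon
    have hfin : ∀ A ∈ 𝒜, (A ∩ B).Finite := fun A hA => hcon A hA
    have hins : insert B 𝒜 ∈ P := by
      refine ⟨?_, ?_⟩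
      · rintro A (rfl | hA)
        · exact hB
        · exact h𝒜P.1 A hA
      · rintro A (rfl | hA) C (rfl | hC) hAC
        · exact absurd rfl hAC
        · rw [inter_comm]; exact hfin C hC
        · exact hfin A hA
        · exact h𝒜P.2 A hA C hC hAC
    have hB𝒜 : B ∈ 𝒜 := h𝒜max.le_of_ge hins (subset_insert _ _) (mem_insert _ _)
    have := hfin B hB𝒜
    rw [inter_self] at this
    exact hB this
  · intro i j hij
    by_contra hne
    have h1 : A₀ i = A₀ j := congrArg Subtype.val hij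
    have h2 := hA₀dis i j hne
    rw [← h1, inter_self] at h2
    exact (hA₀inf i).nonempty.ne_empty h2

/-- Countably many disjoint copies of the Isbell–Mrówka space `Ψ(𝒜)` together with a point
at infinity. -/
def Psi (𝒜 : Set (Set ℕ)) : Type := Option (ℕ × (ℕ ⊕ 𝒜))

variable {𝒜 : Set (Set ℕ)}

/-- The point at infinity. -/
def Psi.inf : Psi 𝒜 := (none : Option (ℕ × (ℕ ⊕ 𝒜)))

/-- A point of the `i`-th copy of `Ψ(𝒜)`. -/
def Psi.pt (i : ℕ) (p : ℕ ⊕ 𝒜) : Psi 𝒜 := (some (i, p) : Option (ℕ × (ℕ ⊕ 𝒜)))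

instance : TopologicalSpace (Psi 𝒜) where
  IsOpen U := (∀ (i : ℕ) (A : 𝒜), Psi.pt i (Sum.inr A) ∈ U →
      {n ∈ A.1 | Psi.pt i (Sum.inl n) ∉ U}.Finite) ∧
    (Psi.inf ∈ U → ∃ N : ℕ, ∀ i ≥ N, ∀ p, Psi.pt i p ∈ U)
  isOpen_univ := by
    refine ⟨fun i A _ => ?_, fun _ => ⟨0, fun _ _ _ => trivial⟩⟩
    convert finite_empty
    ext n; simp
  isOpen_inter := by
    rintro U V ⟨hU, hU'⟩ ⟨hV, hV'⟩
    refine ⟨fun i A h => ?_, fun h => ?_⟩
    · refine ((hU i A h.1).union (hV i A h.2)).subset ?_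
      rintro n ⟨hn, hn'⟩
      by_cases hnU : Psi.pt i (Sum.inl n) ∈ U
      · exact Or.inr ⟨hn, fun hnV => hn' ⟨hnU, hnV⟩⟩
      · exact Or.inl ⟨hn, hnU⟩
    · obtain ⟨M, hM⟩ := hU' h.1
      obtain ⟨M', hM'⟩ := hV' h.2
      exact ⟨max M M', fun m hm p => ⟨hM m (le_trans (le_max_left _ _) hm) p,
        hM' m (le_trans (le_max_right _ _) hm) p⟩⟩
  isOpen_sUnion := by
    intro S hS
    refine ⟨fun i A h => ?_, fun h => ?_⟩
    · obtain ⟨U, hU, hA⟩ := h
      refine ((hS U hU).1 i A hA).subset ?_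
      rintro n ⟨hn, hn'⟩
      exact ⟨hn, fun hnU => hn' ⟨U, hU, hnU⟩⟩
    · obtain ⟨U, hU, hA⟩ := h
      obtain ⟨N, hN⟩ := (hS U hU).2 hA
      exact ⟨N, fun i hi p => ⟨U, hU, hN i hi p⟩⟩

theorem Psi.isOpen_iff {U : Set (Psi 𝒜)} :
    IsOpen U ↔ (∀ (i : ℕ) (A : 𝒜), Psi.pt i (Sum.inr A) ∈ U →
      {n ∈ A.1 | Psi.pt i (Sum.inl n) ∉ U}.Finite) ∧
    (Psi.inf ∈ U → ∃ N : ℕ, ∀ i ≥ N, ∀ p, Psi.pt i p ∈ U) := Iff.rfl

theorem Psi.cases' (x : Psi 𝒜) : x = Psi.inf ∨ ∃ i p, x = Psi.pt i p := by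
  rcases x with _ | ⟨n, m⟩
  · exact Or.inl rfl
  · exact Or.inr ⟨n, m, rfl⟩

theorem Psi.pt_ne_inf (i : ℕ) (p : ℕ ⊕ 𝒜) : Psi.pt i p ≠ Psi.inf := fun h => by
  simp [Psi.pt, Psi.inf] at h

theorem Psi.pt_inj {i j : ℕ} {p q : ℕ ⊕ 𝒜} (h : Psi.pt i p = Psi.pt j q) : i = j ∧ p = q :=
  Prod.mk.inj (Option.some.inj h)

instance : T1Space (Psi 𝒜) := by
  refine ⟨fun x => ?_⟩
  rw [← isOpen_compl_iff, Psi.isOpen_iff]
  rcases Psi.cases' x with rfl | ⟨j, q, rfl⟩
  · refine ⟨fun i A _ => ?_, fun h => absurd rfl h⟩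
    convert finite_empty
    ext n
    simp only [mem_ofPred_eq, mem_compl_iff, mem_singleton_iff, not_not, mem_empty_iff_false,
      iff_false, not_and]
    exact fun _ => Psi.pt_ne_inf _ _
  · refine ⟨fun i A _ => ?_, fun _ => ⟨j + 1, fun i hi p h => ?_⟩⟩
    · rcases q with n | B
      · refine (finite_singleton n).subset ?_
        rintro k ⟨_, hk⟩
        have := (Psi.pt_inj (not_not.1 hk)).2
        exact Sum.inl.inj this
      · convert finite_empty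
        ext n
        simp only [mem_ofPred_eq, mem_compl_iff, mem_singleton_iff, not_not, mem_empty_iff_false,
          iff_false, not_and]
        intro _ h
        exact absurd (Psi.pt_inj h).2 (by simp)
    · have := (Psi.pt_inj (mem_singleton_iff.1 h)).1
      omega

theorem Psi.clopen_basis (h𝒜 : Mad 𝒜) (x : Psi 𝒜) (U : Set (Psi 𝒜)) (hU : IsOpen U)
    (hx : x ∈ U) : ∃ V, IsClopen V ∧ x ∈ V ∧ V ⊆ U := by
  rcases Psi.cases' x with rfl | ⟨i, n | A, rfl⟩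
  · obtain ⟨N, hN⟩ := (Psi.isOpen_iff.1 hU).2 hx
    refine ⟨{y | y = Psi.inf ∨ ∃ i ≥ N, ∃ p, y = Psi.pt i p}, ⟨?_, ?_⟩, Or.inl rfl, ?_⟩
    · rw [← isOpen_compl_iff, Psi.isOpen_iff]
      refine ⟨fun i A h => ?_, fun h => absurd (Or.inl rfl) h⟩
      convert finite_empty
      ext n
      simp only [mem_ofPred_eq, mem_compl_iff, not_not, mem_empty_iff_false, iff_false, not_and]
      rintro _ (h' | ⟨j, hj, p, h'⟩)
      · exact Psi.pt_ne_inf _ _ h'
      · apply h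
        right
        have := (Psi.pt_inj h').1
        exact ⟨i, this ▸ hj, _, rfl⟩
    · rw [Psi.isOpen_iff]
      refine ⟨fun i A h => ?_, fun _ => ⟨N, fun i hi p => Or.inr ⟨i, hi, p, rfl⟩⟩⟩
      convert finite_empty
      ext n
      simp only [mem_ofPred_eq, mem_empty_iff_false, iff_false, not_and, not_not]
      intro _
      rcases h with h' | ⟨j, hj, p, h'⟩
      · exact absurd h' (Psi.pt_ne_inf _ _)
      · have := (Psi.pt_inj h').1
        exact Or.inr ⟨i, this ▸ hj, _, rfl⟩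
    · rintro y (rfl | ⟨j, hj, p, rfl⟩)
      · exact hx
      · exact hN j hj p
  · refine ⟨{Psi.pt i (Sum.inl n)}, ⟨isClosed_singleton, ?_⟩, rfl, singleton_subset_iff.2 hx⟩
    rw [Psi.isOpen_iff]
    refine ⟨fun j A h => ?_, fun h => absurd (mem_singleton_iff.1 h).symm (Psi.pt_ne_inf _ _)⟩
    exact absurd (Psi.pt_inj (mem_singleton_iff.1 h)).2 (by simp)
  · have hfin := (Psi.isOpen_iff.1 hU).1 i A hx
    refine ⟨{y | y = Psi.pt i (Sum.inr A) ∨ ∃ n ∈ A.1, y = Psi.pt i (Sum.inl n) ∧ y ∈ U},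
      ⟨?_, ?_⟩, Or.inl rfl, ?_⟩
    · rw [← isOpen_compl_iff, Psi.isOpen_iff]
      refine ⟨fun j B h => ?_, fun _ => ⟨i + 1, fun j hj p h => ?_⟩⟩
      · by_cases hji : j = i
        · subst hji
          have hBA : B ≠ A := fun hBA => h (Or.inl (by rw [hBA]))
          refine (h𝒜.ad B.1 B.2 A.1 A.2 (fun h' => hBA (Subtype.ext h'))).subset ?_
          rintro n ⟨hnB, hn⟩
          rcases not_not.1 hn with h' | ⟨m, hm, h', _⟩
          · exact absurd (Psi.pt_inj h').2 (by simp)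
          · have := Sum.inl.inj (Psi.pt_inj h').2
            exact ⟨hnB, this ▸ hm⟩
        · convert finite_empty
          ext n
          simp only [mem_ofPred_eq, mem_compl_iff, not_not, mem_empty_iff_false, iff_false,
            not_and]
          rintro _ (h' | ⟨m, hm, h', _⟩)
          · exact hji (Psi.pt_inj h').1
          · exact hji (Psi.pt_inj h').1
      · rcases h with h' | ⟨m, hm, h', _⟩
        · have := (Psi.pt_inj h').1
          omega
        · have := (Psi.pt_inj h').1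
          omega
    · rw [Psi.isOpen_iff]
      refine ⟨fun j B h => ?_, fun h => ?_⟩
      · rcases h with h' | ⟨m, hm, h', _⟩
        · obtain ⟨rfl, hBA⟩ := Psi.pt_inj h'
          obtain rfl := Sum.inr.inj hBA
          refine hfin.subset ?_
          rintro n ⟨hn, hn'⟩
          exact ⟨hn, fun hnU => hn' (Or.inr ⟨n, hn, rfl, hnU⟩)⟩
        · exact absurd (Psi.pt_inj h').2 (by simp)
      · rcases h with h' | ⟨m, hm, h', _⟩
        · exact absurd h'.symm (Psi.pt_ne_inf _ _)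
        · exact absurd h'.symm (Psi.pt_ne_inf _ _)
    · rintro y (rfl | ⟨n, hn, rfl, hnU⟩)
      · exact hx
      · exact hnU

theorem Psi.tendsto_inf (u : ℕ → ℕ) (p : ℕ → ℕ ⊕ 𝒜) (hu : Tendsto u atTop atTop) :
    Tendsto (fun k => Psi.pt (u k) (p k)) atTop (𝓝 Psi.inf) := by
  rw [tendsto_nhds]
  intro U hU h
  obtain ⟨N, hN⟩ := (Psi.isOpen_iff.1 hU).2 h
  filter_upwards [hu.eventually_ge_atTop N] with k hk using hN _ hk _

theorem Psi.tendsto_inr (i : ℕ) (A : 𝒜) (u : ℕ → ℕ) (hu : Tendsto u atTop atTop)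
    (huA : ∀ k, u k ∈ A.1) :
    Tendsto (fun k => Psi.pt (𝒜 := 𝒜) i (Sum.inl (u k))) atTop (𝓝 (Psi.pt i (Sum.inr A))) := by
  rw [tendsto_nhds]
  intro U hU h
  have hfin := (Psi.isOpen_iff.1 hU).1 i A h
  obtain ⟨N, hN⟩ := hfin.bddAbove
  filter_upwards [hu.eventually_gt_atTop N] with k hk
  by_contra hcon
  exact absurd (hN ⟨huA k, hcon⟩) (not_le.2 hk)

instance : SequentialSpace (Psi 𝒜) := by
  refine ⟨fun C hC => ?_⟩
  rw [← isOpen_compl_iff, Psi.isOpen_iff]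
  refine ⟨fun i A h => ?_, fun h => ?_⟩
  · by_contra hcon
    have hinf : {n ∈ A.1 | Psi.pt i (Sum.inl n) ∉ Cᶜ}.Infinite := hcon
    have hmem : ∀ k, Nat.nth (· ∈ {n ∈ A.1 | Psi.pt i (Sum.inl n) ∉ Cᶜ}) k ∈
        {n ∈ A.1 | Psi.pt i (Sum.inl n) ∉ Cᶜ} := fun k => Nat.nth_mem_of_infinite hinf k
    have hmono := Nat.nth_strictMono (p := (· ∈ {n ∈ A.1 | Psi.pt i (Sum.inl n) ∉ Cᶜ})) hinf
    have hC' : ∀ k, Psi.pt (𝒜 := 𝒜) i
        (Sum.inl (Nat.nth (· ∈ {n ∈ A.1 | Psi.pt i (Sum.inl n) ∉ Cᶜ}) k)) ∈ C :=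
      fun k => not_not.1 (hmem k).2
    exact h (hC hC' (Psi.tendsto_inr i A _ hmono.tendsto_atTop fun k => (hmem k).1))
  · by_contra hcon
    push Not at hcon
    choose u hu p hp using hcon
    have hp' : ∀ N, Psi.pt (u N) (p N) ∈ C := fun N => not_not.1 (hp N)
    exact h (hC hp' (Psi.tendsto_inf u p (tendsto_atTop_mono hu tendsto_id)))

/-- The isolated points are dense. -/
theorem Psi.dense_iso (h𝒜 : Mad 𝒜) (U : Set (Psi 𝒜)) (hU : IsOpen U) (hne : U.Nonempty) :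
    ∃ u : ℕ × ℕ, Psi.pt u.1 (Sum.inl u.2) ∈ U := by
  obtain ⟨x, hx⟩ := hne
  rcases Psi.cases' x with rfl | ⟨i, n | A, rfl⟩
  · obtain ⟨N, hN⟩ := (Psi.isOpen_iff.1 hU).2 hx
    exact ⟨(N, 0), hN N le_rfl _⟩
  · exact ⟨(i, n), hx⟩
  · have hfin := (Psi.isOpen_iff.1 hU).1 i A hx
    by_contra hcon
    push Not at hcon
    exact h𝒜.inf A.1 A.2 (hfin.subset fun n hn => ⟨hn, hcon (i, n)⟩)

/-- Each sequence of isolated points has a convergent subsequence. -/
theorem Psi.subseq (h𝒜 : Mad 𝒜) (u : ℕ → ℕ × ℕ) :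
    ∃ φ : ℕ → ℕ, StrictMono φ ∧ ∃ y : Psi 𝒜,
      Tendsto (fun k => Psi.pt (𝒜 := 𝒜) (u (φ k)).1 (Sum.inl (u (φ k)).2)) atTop (𝓝 y) := by
  by_cases h1 : ∀ N, ∃ᶠ k in atTop, N ≤ (u k).1
  · obtain ⟨φ, hφ, hφ'⟩ := extraction_forall_of_frequently h1
    exact ⟨φ, hφ, Psi.inf, Psi.tendsto_inf _ _ (tendsto_atTop_mono hφ' tendsto_id)⟩
  push Not at h1
  obtain ⟨N, hN⟩ := h1
  have h2 : ∃ i, ∃ᶠ k in atTop, (u k).1 = i := by
    by_contra hcon
    push Not at hcon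
    have hall : ∀ᶠ k in atTop, ∀ i ∈ Finset.range N, (u k).1 ≠ i := by
      rw [eventually_all_finset]
      intro i _
      exact hcon i
    obtain ⟨k, hk, hk'⟩ := (hall.and hN).exists
    exact hk _ (Finset.mem_range.2 hk') rfl
  obtain ⟨i, hi⟩ := h2
  by_cases h3 : ∃ n, ∃ᶠ k in atTop, u k = (i, n)
  · obtain ⟨n, hn⟩ := h3
    obtain ⟨φ, hφ, hφ'⟩ := extraction_of_frequently_atTop hn
    refine ⟨φ, hφ, Psi.pt i (Sum.inl n), ?_⟩
    simp only [hφ']
    exact tendsto_const_nhds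
  push Not at h3
  set B : Set ℕ := {n | ∃ k, u k = (i, n)} with hB
  have hBinf : B.Infinite := by
    intro hfin
    have hall : ∀ᶠ k in atTop, ∀ n ∈ B, u k ≠ (i, n) := by
      rw [eventually_all_finite hfin]
      intro n _
      exact h3 n
    obtain ⟨k, hk, hk'⟩ := (hi.and_eventually hall).exists
    exact hk' (u k).2 ⟨k, by rw [← hk]⟩ (by rw [← hk])
  obtain ⟨A, hA, hAB⟩ := h𝒜.max B hBinf
  have hfreq : ∀ M, ∃ᶠ k in atTop, (u k).1 = i ∧ (u k).2 ∈ A ∧ M ≤ (u k).2 := by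
    intro M
    rw [Nat.frequently_atTop_iff_infinite]
    have hinf' : (A ∩ B ∩ {n | M ≤ n}).Infinite := by
      have : ((A ∩ B) \ Iio M).Infinite := hAB.sdiff (finite_Iio M)
      refine this.mono ?_
      rintro n ⟨hn, hn'⟩
      exact ⟨hn, (not_lt.1 hn' : M ≤ n)⟩
    intro hfin
    refine hinf' ((hfin.image fun k => (u k).2).subset ?_)
    rintro n ⟨⟨hnA, k, hk⟩, hnM⟩
    exact ⟨k, ⟨by rw [hk], by rw [hk]; exact hnA, by rw [hk]; exact hnM⟩, congrArg Prod.snd hk⟩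
  obtain ⟨φ, hφ, hφ'⟩ := extraction_forall_of_frequently hfreq
  refine ⟨φ, hφ, Psi.pt i (Sum.inr ⟨A, hA⟩), ?_⟩
  have := Psi.tendsto_inr (𝒜 := 𝒜) i ⟨A, hA⟩ (fun k => (u (φ k)).2)
    (tendsto_atTop_mono (fun k => (hφ' k).2.2) tendsto_id) (fun k => (hφ' k).2.1)
  refine this.congr fun k => ?_
  rw [(hφ' k).1]

/-! ### The product -/

theorem t35_of_clopen {Z : Type*} [TopologicalSpace Z] [T1Space Z]
    (h : ∀ (x : Z) (U : Set Z), IsOpen U → x ∈ U → ∃ V, IsClopen V ∧ x ∈ V ∧ V ⊆ U) :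
    T35Space Z := by
  classical
  have : CompletelyRegularSpace Z := by
    refine ⟨fun x K hK hxK => ?_⟩
    obtain ⟨V, hV, hxV, hVK⟩ := h x Kᶜ hK.isOpen_compl hxK
    refine ⟨fun y => if y ∈ V then 0 else 1, ?_, if_pos hxV, fun y hy => ?_⟩
    · refine continuous_def.2 fun s _ => ?_
      by_cases h0 : (0 : unitInterval) ∈ s <;> by_cases h1 : (1 : unitInterval) ∈ s
      · convert isOpen_univ
        ext y
        by_cases hy : y ∈ V <;> simp [hy, h0, h1]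
      · convert hV.isOpen
        ext y
        by_cases hy : y ∈ V <;> simp [hy, h0, h1]
      · convert hV.compl.isOpen
        ext y
        by_cases hy : y ∈ V <;> simp [hy, h0, h1]
      · convert isOpen_empty
        ext y
        by_cases hy : y ∈ V <;> simp [hy, h0, h1]
    · exact if_neg fun hyV => hVK hyV hy
  exact {}

theorem t35_prod (h𝒜 : Mad 𝒜) : T35Space (Fan × Psi 𝒜) := by
  refine t35_of_clopen fun z U hU hz => ?_
  obtain ⟨U₁, U₂, hU₁, hU₂, h1, h2, h12⟩ := isOpen_prod_iff.1 hU z.1 z.2 hz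
  obtain ⟨V₁, hV₁, hz1, hV1⟩ := Fan.clopen_basis z.1 U₁ hU₁ h1
  obtain ⟨V₂, hV₂, hz2, hV2⟩ := Psi.clopen_basis h𝒜 z.2 U₂ hU₂ h2
  exact ⟨V₁ ×ˢ V₂, hV₁.prod hV₂, ⟨hz1, hz2⟩, (prod_mono hV1 hV2).trans h12⟩

theorem isKRSpace_prod (h𝒜 : Mad 𝒜) : IsKRSpace (Fan × Psi 𝒜) := by
  refine ⟨t35_prod h𝒜, fun f hf => ?_⟩
  have hseq : ∀ (z : ℕ → Fan × Psi 𝒜) (w : Fan × Psi 𝒜), Tendsto z atTop (𝓝 w) →
      Tendsto (fun k => f (z k)) atTop (𝓝 (f w)) := by
    intro z w hz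
    have hK := hf _ hz.isCompact_insert_range
    have h1 := hK w (mem_insert _ _)
    exact h1.tendsto.comp (tendsto_nhdsWithin_iff.2
      ⟨hz, Eventually.of_forall fun k => mem_insert_of_mem _ ⟨k, rfl⟩⟩)
  have hslice : ∀ x : Fan, Continuous fun y : Psi 𝒜 => f (x, y) := by
    intro x
    refine SeqContinuous.continuous fun y p hy => ?_
    exact hseq (fun k => (x, y k)) (x, p) (tendsto_const_nhds.prodMk_nhds hy)
  have hunif : ∀ (n : ℕ) (ε : ℝ), 0 < ε → ∃ M, ∀ m ≥ M, ∀ y : Psi 𝒜,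
      |f (Fan.pt n m, y) - f (Fan.inf, y)| ≤ ε := by
    intro n ε hε
    by_contra hcon
    push Not at hcon
    have hcon' : ∀ M, ∃ m ≥ M, ∃ v : ℕ × ℕ,
        ε < |f (Fan.pt n m, Psi.pt v.1 (Sum.inl v.2)) -
          f (Fan.inf, Psi.pt v.1 (Sum.inl v.2))| := by
      intro M
      obtain ⟨m, hm, y, hy⟩ := hcon M
      have hopen : IsOpen {y : Psi 𝒜 | ε < |f (Fan.pt n m, y) - f (Fan.inf, y)|} :=
        isOpen_lt continuous_const ((hslice _).sub (hslice _)).abs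
      obtain ⟨v, hv⟩ := Psi.dense_iso h𝒜 _ hopen ⟨y, hy⟩
      exact ⟨m, hm, v, hv⟩
    choose m hm v hv using hcon'
    obtain ⟨φ, hφ, y, hy⟩ := Psi.subseq h𝒜 v
    have h1 := hseq (fun k => (Fan.pt n (m (φ k)), Psi.pt (v (φ k)).1 (Sum.inl (v (φ k)).2)))
      (Fan.inf, y) ((Fan.tendsto_inf n _ (tendsto_atTop_mono (fun k => (hφ.le_apply.trans
        (hm (φ k)))) tendsto_id)).prodMk_nhds hy)
    have h2 := hseq (fun k => (Fan.inf, Psi.pt (v (φ k)).1 (Sum.inl (v (φ k)).2)))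
      (Fan.inf, y) (tendsto_const_nhds.prodMk_nhds hy)
    have h3 := (h1.sub h2).abs
    rw [sub_self, abs_zero] at h3
    obtain ⟨k, hk⟩ := (h3.eventually_lt_const hε).exists
    exact absurd hk (not_lt.2 (hv (φ k)).le)
  rw [continuous_iff_continuousAt]
  rintro ⟨x, y⟩
  rcases Fan.cases' x with rfl | ⟨n, m, rfl⟩
  · rw [Metric.continuousAt_iff']
    intro ε hε
    choose g hg using fun n => hunif n (ε / 2) (half_pos hε)
    have hV : {y' : Psi 𝒜 | |f (Fan.inf, y') - f (Fan.inf, y)| < ε / 2} ∈ 𝓝 y :=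
      (isOpen_lt ((hslice _).sub continuous_const).abs continuous_const).mem_nhds
        (by simpa using half_pos hε)
    have hU : {x' : Fan | x' = Fan.inf ∨ ∃ n, ∃ m ≥ g n, x' = Fan.pt n m} ∈ 𝓝 Fan.inf := by
      refine IsOpen.mem_nhds ?_ (Or.inl rfl)
      rw [Fan.isOpen_iff]
      exact fun _ n => ⟨g n, fun m hm => Or.inr ⟨n, m, hm, rfl⟩⟩
    filter_upwards [prod_mem_nhds hU hV]
    rintro ⟨x', y'⟩ ⟨hx', hy'⟩
    rw [Real.dist_eq]
    rcases hx' with hx' | ⟨n, m, hm, hx'⟩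
    · simp only at hx'
      rw [hx']
      exact hy'.trans (half_lt_self hε)
    · simp only at hx'
      rw [hx']
      have h1 := hg n m hm y'
      have h2 : |f (Fan.inf, y') - f (Fan.inf, y)| < ε / 2 := hy'
      calc |f (Fan.pt n m, y') - f (Fan.inf, y)|
          = |(f (Fan.pt n m, y') - f (Fan.inf, y')) + (f (Fan.inf, y') - f (Fan.inf, y))| := by
            congr 1; ring
        _ ≤ _ := abs_add_le _ _
        _ < ε := by linarith
  · have hU : {Fan.pt n m} ×ˢ (univ : Set (Psi 𝒜)) ∈ 𝓝 (Fan.pt n m, y) :=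
      prod_mem_nhds ((Fan.isOpen_singleton n m).mem_nhds rfl) univ_mem
    refine ContinuousAt.congr (f := fun z : Fan × Psi 𝒜 => f (Fan.pt n m, z.2))
      ((hslice _).comp continuous_snd).continuousAt ?_
    filter_upwards [hU]
    rintro ⟨x', y'⟩ ⟨hx', _⟩
    rw [show x' = Fan.pt n m from hx']

theorem not_isKSpace_prod (A : ℕ → 𝒜) (hA : Function.Injective A) :
    ¬ IsKSpace (Fan × Psi 𝒜) := by
  intro hk
  let h : ℕ → ℕ → Fan × Psi 𝒜 := fun n m => (Fan.pt n m, Psi.pt n (Sum.inr (A m)))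
  let H : Set (Fan × Psi 𝒜) := {z | ∃ n m, z = h n m}
  have hcl : IsClosed H := by
    refine hk H fun K hK => ?_
    -- each column of `H` meets `K` in a finite set
    have hfin : ∀ n, {m | h n m ∈ K}.Finite := by
      intro n
      let O : ℕ → Set (Psi 𝒜) := fun m => {y | y = Psi.pt n (Sum.inr (A m)) ∨
        ∀ m', y ≠ Psi.pt n (Sum.inr (A m'))}
      have hO : ∀ m, IsOpen (O m) := by
        intro m
        rw [Psi.isOpen_iff]
        refine ⟨fun i B _ => ?_, fun _ => ⟨n + 1, fun i hi p => Or.inr fun m' h' => ?_⟩⟩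
        · convert finite_empty
          ext k
          simp only [mem_ofPred_eq, mem_empty_iff_false, iff_false, not_and, not_not]
          intro _
          right
          intro m' h'
          exact absurd (Psi.pt_inj h').2 (by simp)
        · have := (Psi.pt_inj h').1
          omega
      have hcov : (Prod.snd '' K) ⊆ ⋃ m, O m := by
        intro y _
        by_cases hy : ∃ m, y = Psi.pt n (Sum.inr (A m))
        · obtain ⟨m, hm⟩ := hy
          exact mem_iUnion.2 ⟨m, Or.inl hm⟩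
        · push Not at hy
          exact mem_iUnion.2 ⟨0, Or.inr hy⟩
      obtain ⟨t, ht⟩ := (hK.image continuous_snd).elim_finite_subcover O hO hcov
      refine t.finite_toSet.subset fun m hm => ?_
      have h1 : Psi.pt n (Sum.inr (A m)) ∈ ⋃ i ∈ t, O i := ht ⟨_, hm, rfl⟩
      obtain ⟨i, hi, h2⟩ := mem_iUnion₂.1 h1
      rcases h2 with h2 | h2
      · have h3 := hA (Sum.inr.inj (Psi.pt_inj h2).2)
        rw [h3]; exact hi
      · exact absurd rfl (h2 m)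
    choose g hg using fun n => (hfin n).bddAbove
    have hcl' : IsClosed (H ∩ K) := by
      rw [← isOpen_compl_iff, isOpen_iff_mem_nhds]
      rintro ⟨x, y⟩ hz
      rcases Fan.cases' x with rfl | ⟨n, m, rfl⟩
      · have hU : {x' : Fan | x' = Fan.inf ∨ ∃ n, ∃ m ≥ g n + 1, x' = Fan.pt n m} ∈
            𝓝 Fan.inf := by
          refine IsOpen.mem_nhds ?_ (Or.inl rfl)
          rw [Fan.isOpen_iff]
          exact fun _ n => ⟨g n + 1, fun m hm => Or.inr ⟨n, m, hm, rfl⟩⟩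
        filter_upwards [prod_mem_nhds hU univ_mem]
        rintro ⟨x', y'⟩ ⟨hx', _⟩ ⟨⟨n, m, hnm⟩, hK'⟩
        have hx'' : x' = Fan.pt n m := congrArg Prod.fst hnm
        rcases hx' with hx' | ⟨n', m', hm', hx'⟩
        · simp only at hx'
          rw [hx''] at hx'
          exact Fan.pt_ne_inf _ _ hx'
        · simp only at hx'
          rw [hx''] at hx'
          obtain ⟨rfl, rfl⟩ := Fan.pt_inj hx'
          have h3 : m ≤ g n := hg n (by
            change h n m ∈ K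
            rw [← hnm]; exact hK')
          omega
      · by_cases hmK : h n m ∈ K
        · have hy : y ≠ Psi.pt n (Sum.inr (A m)) := by
            intro hy
            exact hz ⟨⟨n, m, by rw [hy]⟩, by rw [hy]; exact hmK⟩
          filter_upwards [prod_mem_nhds ((Fan.isOpen_singleton n m).mem_nhds rfl)
            (isOpen_compl_singleton.mem_nhds hy)]
          rintro ⟨x', y'⟩ ⟨hx', hy'⟩ ⟨⟨n', m', hnm⟩, _⟩
          have hx'' : x' = Fan.pt n' m' := congrArg Prod.fst hnm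
          have hy'' : y' = Psi.pt n' (Sum.inr (A m')) := congrArg Prod.snd hnm
          rw [show x' = Fan.pt n m from hx'] at hx''
          obtain ⟨rfl, rfl⟩ := Fan.pt_inj hx''
          exact hy' hy''
        · filter_upwards [prod_mem_nhds ((Fan.isOpen_singleton n m).mem_nhds rfl)
            (univ_mem : (univ : Set (Psi 𝒜)) ∈ 𝓝 y)]
          rintro ⟨x', y'⟩ ⟨hx', _⟩ ⟨⟨n', m', hnm⟩, hK'⟩
          have hx'' : x' = Fan.pt n' m' := congrArg Prod.fst hnm
          rw [show x' = Fan.pt n m from hx'] at hx''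
          obtain ⟨rfl, rfl⟩ := Fan.pt_inj hx''
          exact hmK (by rw [hnm] at hK'; exact hK')
    have : ((↑) ⁻¹' H : Set K) = (↑) ⁻¹' (H ∩ K) := by
      ext z
      simp
    rw [this]
    exact hcl'.preimage continuous_subtype_val
  have hmem : (Fan.inf, (Psi.inf : Psi 𝒜)) ∈ closure H := by
    rw [mem_closure_iff]
    intro W hW hW'
    obtain ⟨U, V, hU, hV, h1, h2, h12⟩ := isOpen_prod_iff.1 hW _ _ hW'
    obtain ⟨N, hN⟩ := (Psi.isOpen_iff.1 hV).2 h2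
    obtain ⟨M, hM⟩ := Fan.isOpen_iff.1 hU h1 N
    exact ⟨h N M, h12 ⟨hM M le_rfl, hN N le_rfl _⟩, N, M, rfl⟩
  rw [hcl.closure_eq] at hmem
  obtain ⟨n, m, hnm⟩ := hmem
  exact Fan.pt_ne_inf n m (congrArg Prod.fst hnm).symm

/-- There are sequential spaces `X` and `Y` such that `X × Y` is a `k_ℝ`-space (in particular
Tychonoff) but not a `k`-space. -/
theorem result : ∃ (X Y : Type) (_ : TopologicalSpace X) (_ : TopologicalSpace Y),
    SequentialSpace X ∧ SequentialSpace Y ∧ IsKRSpace (X × Y) ∧ ¬ IsKSpace (X × Y) := by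
  obtain ⟨𝒜, h𝒜, A, hA⟩ := exists_mad
  exact ⟨Fan, Psi 𝒜, inferInstance, inferInstance, inferInstance, inferInstance,
    isKRSpace_prod h𝒜, not_isKSpace_prod A hA⟩

end Pool.Agent.Results.MP_a29c66_gt.SequentialProduct
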